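import Mathlib
import Pool.Agent.Helper78.FIS

/-!
# Isospectral sets of spherical space forms are bounded in every dimension
-/

namespace Pool.Agent.Results.MP_3d5f1b_gt.FiniteIsospectralSets

open scoped ContDiff

/-- The Euclidean space `ℝ^(d+1)`. -/
abbrev E (d : ℕ) : Type := EuclideanSpace ℝ (Fin (d + 1))

/-- The unit sphere `S^d` of `ℝ^(d+1)`. -/
abbrev S (d : ℕ) : Set (E d) := Metric.sphere 0 1

/-- The orthogonal group `O(d+1)`. -/
abbrev O (d : ℕ) : Type := Matrix.orthogonalGroup (Fin (d + 1)) ℝ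

/-- The action of `O(d+1)` on `ℝ^(d+1)` by matrix-vector multiplication. -/
def app {d : ℕ} (g : O d) (x : E d) : E d :=
  WithLp.toLp 2 ((g : Matrix (Fin (d + 1)) (Fin (d + 1)) ℝ).mulVec (WithLp.ofLp x))

/-- `Γ` is a finite subgroup of `O(d+1)` which acts freely on the sphere `S^d`. -/
def IsSpaceFormGroup {d : ℕ} (Γ : Subgroup (O d)) : Prop :=
  Finite Γ ∧ ∀ g ∈ Γ, g ≠ 1 → ∀ x : S d, app g x ≠ x

/-- The spherical space form `S^d / Γ` (the set of orbits). -/
def SpaceForm {d : ℕ} (Γ : Subgroup (O d)) : Type :=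
  Quot fun x y : S d => ∃ g ∈ Γ, app g x = y

/-- The orbit of a point of the sphere. -/
def orb {d : ℕ} (Γ : Subgroup (O d)) (x : S d) : SpaceForm Γ := Quot.mk _ x

/-- The distance of the quotient metric on `S^d / Γ`: the least angle between representatives. -/
noncomputable def qdist {d : ℕ} (Γ : Subgroup (O d)) (p q : SpaceForm Γ) : ℝ :=
  sInf {a : ℝ | ∃ x y : S d, orb Γ x = p ∧ orb Γ y = q ∧
    a = InnerProductGeometry.angle (x : E d) (y : E d)}

/-- `S^d / Γ` and `S^d / Γ'` are isometric. -/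
def Isometric {d : ℕ} (Γ Γ' : Subgroup (O d)) : Prop :=
  ∃ φ : SpaceForm Γ ≃ SpaceForm Γ', ∀ p q, qdist Γ' (φ p) (φ q) = qdist Γ p q

/-- `f` is a smooth complex-valued function on `S^d / Γ` with `Δ f = -lam f`, where `Δ` is the
Laplace-Beltrami operator: the function `F` on `ℝ^(d+1) ∖ {0}` with `F (t x) = f [x]` for `t > 0`
and `x ∈ S^d` is smooth, and its Euclidean Laplacian at `x ∈ S^d` is `-lam f [x]`. -/
def IsEigenfunction {d : ℕ} {Γ : Subgroup (O d)} (lam : ℝ) (f : SpaceForm Γ → ℂ) : Prop :=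
  ∃ F : E d → ℂ, ContDiffOn ℝ ∞ F {0}ᶜ ∧ ∀ x : S d,
    (∀ t : ℝ, 0 < t → F (t • (x : E d)) = f (orb Γ x)) ∧
      Laplacian.laplacian F (x : E d) = -(lam : ℂ) * f (orb Γ x)

/-- The multiplicity of `lam` as an eigenvalue of the Laplace-Beltrami operator of `S^d / Γ`: the
dimension of the space of the functions `f` as above. -/
noncomputable def mult {d : ℕ} (Γ : Subgroup (O d)) (lam : ℝ) : ℕ :=
  Set.finrank ℂ {f : SpaceForm Γ → ℂ | IsEigenfunction lam f}

/-- `S^d / Γ` and `S^d / Γ'` are isospectral. -/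
def Isospectral {d : ℕ} (Γ Γ' : Subgroup (O d)) : Prop := ∀ lam : ℝ, mult Γ lam = mult Γ' lam

/-- For every `d ≥ 1` every set of pairwise isospectral and pairwise non-isometric
`d`-dimensional spherical space forms has at most `2 ^ (10 ^ 18 * (d + 1) ^ 9)` members. -/
theorem result (d : ℕ) (hd : 1 ≤ d) (F : Set (Subgroup (O d)))
    (hF : ∀ Γ ∈ F, IsSpaceFormGroup Γ)
    (h : ∀ Γ ∈ F, ∀ Γ' ∈ F, Γ ≠ Γ' → Isospectral Γ Γ' ∧ ¬ Isometric Γ Γ') :
    F.encard ≤ (2 ^ (10 ^ 18 * (d + 1) ^ 9) : ℕ) :=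
  Pool.Agent.Helper78.FIS.main' d hd F hF h

end Pool.Agent.Results.MP_3d5f1b_gt.FiniteIsospectralSets
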